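import Pool.Agent.H45.KAL.CIL

/-!
# Most likely values and majority labels (row MAJ of K_POLY)

If two copies of `G`, conditionally independent given `L`, are equal outside probability `ε`, then
`G` is a function of `L` outside probability `ε`; if moreover `G` and `L` are conditionally
independent given `X`, then `G` is also a function of `X` outside probability `ε`, and the two
functions agree outside probability `2 ε`.
-/

set_option autoImplicit false

namespace Pool.KPO

open Finset Real
open Pool.Agent.H49.Ent Pool.Agent.H32.Dense Pool.STK Pool.KS3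

section

variable {Ω S U V : Type} [Fintype Ω] {p : Ω → ℝ}

open Classical in
/-- The conditional probability of `G = s (L)` given `L`, integrated. -/
lemma sum_cond_value (hp : ∀ ω, 0 ≤ p ω) (G : Ω → S) (L : Ω → U) (s : U → S) :
    ∑ ω, p ω * (law p (fun ω => (G ω, L ω)) (s (L ω), L ω) / law p L (L ω)) =
      ∑ ω, if G ω = s (L ω) then p ω else 0 := by
  have h1 : ∀ ω, p ω * (law p (fun ω => (G ω, L ω)) (s (L ω), L ω) / law p L (L ω)) =
      ∑ ω', if G ω' = s (L ω') ∧ L ω' = L ω then p ω' * (p ω / law p L (L ω')) else 0 := by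
    intro ω
    unfold law
    rw [mul_div_assoc', mul_comm (p ω), Finset.sum_mul, Finset.sum_div]
    refine Finset.sum_congr rfl fun ω' _ => ?_
    by_cases h : G ω' = s (L ω') ∧ L ω' = L ω
    · rw [if_pos h, if_pos (Prod.ext (by simp only [h.1, h.2]) h.2), mul_div_assoc, h.2]
    · rw [if_neg h, if_neg, zero_mul, zero_div]
      intro h'
      rw [Prod.mk.injEq] at h'
      exact h ⟨by rw [h'.1, h'.2], h'.2⟩
  rw [Finset.sum_congr rfl fun ω _ => h1 ω, Finset.sum_comm]
  refine Finset.sum_congr rfl fun ω' _ => ?_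
  by_cases h : G ω' = s (L ω')
  · rw [if_pos h]
    have h2 : ∀ ω, (if G ω' = s (L ω') ∧ L ω' = L ω then p ω' * (p ω / law p L (L ω')) else 0) =
        p ω' / law p L (L ω') * (if L ω = L ω' then p ω else 0) := by
      intro ω
      by_cases h' : L ω' = L ω
      · rw [if_pos ⟨h, h'⟩, if_pos h'.symm]
        ring
      · rw [if_neg (fun h3 => h' h3.2), if_neg (fun h3 => h' h3.symm), mul_zero]
    rw [Finset.sum_congr rfl fun ω _ => h2 ω, ← Finset.mul_sum]
    have h3 : ∑ ω, (if L ω = L ω' then p ω else 0) = law p L (L ω') := rfl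
    rw [h3]
    rcases (hp ω').eq_or_lt with h4 | h4
    · rw [← h4, zero_div, zero_mul]
    · exact div_mul_cancel₀ _ (law_pos hp L h4).ne'
  · rw [if_neg h]
    refine Finset.sum_eq_zero fun ω _ => ?_
    rw [if_neg fun h3 => h h3.1]

/-- A most likely value of `G` given `L`. -/
lemma exists_mode [Nonempty S] (hp : ∀ ω, 0 ≤ p ω) (G : Ω → S) (L : Ω → U) :
    ∃ s : U → S, ∀ b x, law p (fun ω => (G ω, L ω)) (x, b) ≤
      law p (fun ω => (G ω, L ω)) (s b, b) := by
  classical
  have h1 : ∀ b : U, ∃ y : S, ∀ x, law p (fun ω => (G ω, L ω)) (x, b) ≤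
      law p (fun ω => (G ω, L ω)) (y, b) := by
    intro b
    by_cases hΩ : Nonempty Ω
    · obtain ⟨y, _, hy⟩ := Finset.exists_max_image (Finset.univ.image G)
        (fun x => law p (fun ω => (G ω, L ω)) (x, b))
        (Finset.Nonempty.image Finset.univ_nonempty G)
      refine ⟨y, fun x => ?_⟩
      by_cases hx : x ∈ Finset.univ.image G
      · exact hy x hx
      · have h2 : law p (fun ω => (G ω, L ω)) (x, b) = 0 := by
          unfold law
          refine Finset.sum_eq_zero fun ω _ => ?_
          rw [if_neg]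
          intro h3
          exact hx (Finset.mem_image.mpr ⟨ω, Finset.mem_univ ω, (Prod.mk.inj h3).1⟩)
        rw [h2]
        exact law_nonneg hp _ _
    · refine ⟨Classical.arbitrary S, fun x => ?_⟩
      have h2 : ∀ x, law p (fun ω => (G ω, L ω)) (x, b) = 0 := by
        intro x
        unfold law
        refine Finset.sum_eq_zero fun ω _ => absurd ⟨ω⟩ hΩ
      rw [h2, h2]
  choose s hs using h1
  exact ⟨s, hs⟩

open Classical in
/-- **The mode.** Outside the probability that two copies of `G`, conditionally independent given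
`L`, differ, `G` is a function of `L`. -/
theorem mode_le [Nonempty S] (hp : ∀ ω, 0 ≤ p ω) (G : Ω → S) (L : Ω → U) :
    ∃ s : U → S, (∑ ω, if G ω ≠ s (L ω) then p ω else 0) ≤
      ∑ w : Ω × Ω, if G w.1 ≠ G w.2 then dbl p L w else 0 := by
  obtain ⟨s, hs⟩ := exists_mode hp G L
  refine ⟨s, ?_⟩
  have e1 : (∑ ω, if G ω ≠ s (L ω) then p ω else 0) =
      ∑ ω, p ω - ∑ ω, (if G ω = s (L ω) then p ω else 0) := by
    rw [← Finset.sum_sub_distrib]
    refine Finset.sum_congr rfl fun ω _ => ?_
    by_cases h : G ω = s (L ω)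
    · rw [if_neg (not_not.mpr h), if_pos h, sub_self]
    · rw [if_pos h, if_neg h, sub_zero]
  have e2 : (∑ w : Ω × Ω, if G w.1 ≠ G w.2 then dbl p L w else 0) =
      ∑ w, dbl p L w - ∑ w : Ω × Ω, (if G w.1 = G w.2 then dbl p L w else 0) := by
    rw [← Finset.sum_sub_distrib]
    refine Finset.sum_congr rfl fun w _ => ?_
    by_cases h : G w.1 = G w.2
    · rw [if_neg (not_not.mpr h), if_pos h, sub_self]
    · rw [if_pos h, if_neg h, sub_zero]
  have e3 : ∑ w, dbl p L w = ∑ ω, p ω := sum_glue hp (fun _ => rfl)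
  have e4 : ∑ w : Ω × Ω, (if G w.1 = G w.2 then dbl p L w else 0) =
      ∑ ω, p ω * (law p (fun ω => (G ω, L ω)) (G ω, L ω) / law p L (L ω)) := by
    rw [Fintype.sum_prod_type]
    refine Finset.sum_congr rfl fun ω _ => ?_
    have h1 : law p (fun ω => (G ω, L ω)) (G ω, L ω) =
        ∑ ω', if G ω = G ω' ∧ L ω = L ω' then p ω' else 0 := by
      unfold law
      refine Finset.sum_congr rfl fun ω' _ => ?_
      by_cases h : G ω = G ω' ∧ L ω = L ω'
      · rw [if_pos h, if_pos (by rw [h.1, h.2])]
      · rw [if_neg h, if_neg]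
        intro h'
        rw [Prod.mk.injEq] at h'
        exact h ⟨h'.1.symm, h'.2.symm⟩
    rw [h1, Finset.sum_div, Finset.mul_sum]
    refine Finset.sum_congr rfl fun ω' _ => ?_
    have h2 : dbl p L (ω, ω') = if L ω = L ω' then p ω * p ω' / law p L (L ω) else 0 := rfl
    have h3 : (if G (ω, ω').1 = G (ω, ω').2 then dbl p L (ω, ω') else 0) =
        if G ω = G ω' then dbl p L (ω, ω') else 0 := rfl
    rw [h3, h2]
    by_cases h : G ω = G ω'
    · by_cases h' : L ω = L ω'
      · rw [if_pos h, if_pos h', if_pos ⟨h, h'⟩]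
        ring
      · rw [if_pos h, if_neg h', if_neg fun h3 : G ω = G ω' ∧ L ω = L ω' => h' h3.2]
        ring
    · rw [if_neg h, if_neg fun h3 => h h3.1]
      ring
  rw [e1, e2, e3, e4, ← sum_cond_value hp G L s]
  refine sub_le_sub_left (Finset.sum_le_sum fun ω _ => ?_) _
  refine mul_le_mul_of_nonneg_left ?_ (hp ω)
  exact div_le_div_of_nonneg_right (hs _ _) (law_nonneg hp _ _)

open Classical in
/-- If `G` and `L` are conditionally independent given `X`, then the most likely value of `G`
given `X` is at least as good as any function of `L`. -/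
theorem mode_ci [Nonempty S] (hp : IsLaw p) (G : Ω → S) (L : Ω → U) (X : Ω → V)
    (h : CI p G L X) : ∃ g : V → S, ∀ s : U → S,
      (∑ ω, if G ω ≠ g (X ω) then p ω else 0) ≤ ∑ ω, if G ω ≠ s (L ω) then p ω else 0 := by
  have hp0 := hp.nonneg
  obtain ⟨g, hg⟩ := exists_mode hp0 G X
  refine ⟨g, fun s => ?_⟩
  have e1 : ∀ f : Ω → S, (∑ ω, if G ω ≠ f ω then p ω else 0) =
      ∑ ω, p ω - ∑ ω, (if G ω = f ω then p ω else 0) := by
    intro f
    rw [← Finset.sum_sub_distrib]
    refine Finset.sum_congr rfl fun ω _ => ?_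
    by_cases h : G ω = f ω
    · rw [if_neg (not_not.mpr h), if_pos h, sub_self]
    · rw [if_pos h, if_neg h, sub_zero]
  rw [e1 fun ω => g (X ω), e1 fun ω => s (L ω)]
  refine sub_le_sub_left ?_ _
  rw [← sum_cond_value hp0 G X g]
  have e2 := sum_cond_value hp0 G (fun ω => (L ω, X ω)) (fun q => s q.1)
  simp only at e2
  rw [← e2]
  refine Finset.sum_le_sum fun ω _ => ?_
  refine mul_le_mul_of_nonneg_left ?_ (hp0 ω)
  have h0 : 0 ≤ law p (fun ω => (G ω, X ω)) (g (X ω), X ω) / law p X (X ω) :=
    div_nonneg (law_nonneg hp0 _ _) (law_nonneg hp0 _ _)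
  by_cases h1 : ∃ v, 0 < p v ∧ G v = s (L ω) ∧ L v = L ω ∧ X v = X ω
  · obtain ⟨v, hv, h2, h3, h4⟩ := h1
    have h5 := CI.law_eq hp h hv
    rw [h2, h3, h4] at h5
    rw [h5]
    exact div_le_div_of_nonneg_right (hg _ _) (law_nonneg hp0 _ _)
  · have h2 : law p (fun ω => (G ω, (L ω, X ω))) (s (L ω), (L ω, X ω)) = 0 := by
      unfold law
      refine Finset.sum_eq_zero fun v _ => ?_
      by_cases h3 : (G v, (L v, X v)) = (s (L ω), (L ω, X ω))
      · rw [if_pos h3]
        rw [Prod.mk.injEq, Prod.mk.injEq] at h3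
        rcases (hp0 v).eq_or_lt with h4 | h4
        · exact h4.symm
        · exact absurd ⟨v, h4, h3.1, h3.2.1, h3.2.2⟩ h1
      · rw [if_neg h3]
    rw [h2, zero_div]
    exact h0

open Classical in
/-- **Row MAJ.** `G` is a label of the incidence, `L` the line (with its window), `X` the point at
a random time; `G` depends only on `X` and on an independent witness (`CI p G L X`). If two copies
of `G`, conditionally independent given `L`, are equal outside probability `ε`, then there are
labels `s (L)` and `g (X)` with `G = s (L)` and `G = g (X)` outside probability `ε`, and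
`g (X) = s (L)` outside probability `2 ε`. -/
theorem maj [Nonempty S] (hp : IsLaw p) (G : Ω → S) (L : Ω → U) (X : Ω → V) (h : CI p G L X)
    (ε : ℝ) (hε : (∑ w : Ω × Ω, if G w.1 ≠ G w.2 then dbl p L w else 0) ≤ ε) :
    ∃ (s : U → S) (g : V → S), (∑ ω, if G ω ≠ s (L ω) then p ω else 0) ≤ ε ∧
      (∑ ω, if G ω ≠ g (X ω) then p ω else 0) ≤ ε ∧
      (∑ ω, if g (X ω) ≠ s (L ω) then p ω else 0) ≤ 2 * ε := by
  have hp0 := hp.nonneg
  obtain ⟨s, hs⟩ := mode_le hp0 G L
  obtain ⟨g, hg⟩ := mode_ci hp G L X h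
  have h1 := hs.trans hε
  have h2 := (hg s).trans h1
  refine ⟨s, g, h1, h2, ?_⟩
  calc (∑ ω, if g (X ω) ≠ s (L ω) then p ω else 0) ≤
        ∑ ω, ((if G ω ≠ s (L ω) then p ω else 0) + (if G ω ≠ g (X ω) then p ω else 0)) := by
        refine Finset.sum_le_sum fun ω _ => ?_
        have h3 := hp0 ω
        by_cases h4 : G ω = s (L ω)
        · by_cases h5 : G ω = g (X ω)
          · rw [if_neg (not_not.mpr (h5.symm.trans h4)), if_neg (not_not.mpr h4),
              if_neg (not_not.mpr h5), add_zero]
          · rw [if_neg (not_not.mpr h4), if_pos h5, zero_add]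
            split_ifs
            · exact le_rfl
            · exact h3
        · rw [if_pos h4]
          split_ifs <;> linarith
    _ ≤ 2 * ε := by
        rw [Finset.sum_add_distrib]
        linarith

end

end Pool.KPO
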