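import Mathlib

/-!
# Newton iteration with nearly constant Taylor coefficients (row NWT of K_POLY)

`P` is a polynomial in one variable `N` whose coefficients are polynomials in the base variables.
If on a set `S` of points `(Y, N)` the Taylor coefficients `a_j (Y, N)` of `P (Y, ·)` at `N` are
nearly constant and `P (Y, N)` is small, then `N` is a polynomial function of `Y` on `S`, up to a
small error and with a bounded degree.
-/

set_option autoImplicit false

namespace Pool.KPO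

open Polynomial Finset

/-- Taylor expansion of a Hasse derivative. -/
theorem hasse_eval_eq (p : ℝ[X]) (D m : ℕ) (hD : p.natDegree ≤ D) (x G : ℝ) :
    (hasseDeriv m p).eval G =
      ∑ k ∈ range (D + 1), ((m + k).choose k : ℝ) * (hasseDeriv (m + k) p).eval x * (G - x) ^ k := by
  have h1 : (hasseDeriv m p).eval G = (taylor x (hasseDeriv m p)).eval (G - x) := by
    rw [taylor_eval, sub_add_cancel]
  rw [h1, eval_eq_sum_range' (n := D + 1)]
  · refine Finset.sum_congr rfl fun k _ => ?_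
    rw [taylor_coeff]
    have h2 : hasseDeriv k (hasseDeriv m p) = ((m + k).choose k : ℝ) • hasseDeriv (m + k) p := by
      have h3 := hasseDeriv_comp (R := ℝ) k m
      have h4 := LinearMap.congr_fun h3 p
      rw [LinearMap.comp_apply] at h4
      rw [h4, LinearMap.smul_apply, add_comm k m, ← Nat.cast_smul_eq_nsmul ℝ]
    rw [h2, eval_smul, smul_eq_mul]
  · rw [natDegree_taylor]
    have := natDegree_hasseDeriv_le p m
    omega

/-- **Lemma N, one step, over one base point.** -/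
theorem newton_step (p : ℝ[X]) (D : ℕ) (hD : p.natDegree ≤ D) (a : ℕ → ℝ) (K δ E x G : ℝ)
    (hK : 1 ≤ K) (hδ : 0 ≤ δ) (hE : δ ≤ E) (i : ℕ) (hi : 1 ≤ i) (hiD : i ≤ D) (hai : a i ≠ 0)
    (hmax : ∀ j, 1 ≤ j → j ≤ D → |a j| * (K * E) ^ j ≤ |a i| * (K * E) ^ i)
    (h0 : |p.eval x| ≤ K⁻¹ * |a 1| * δ)
    (hj : ∀ j, 1 ≤ j → j ≤ D → ∀ B : ℝ, (∀ k, j + k ≤ D → |a (j + k)| * δ ^ k ≤ B) →
      |(hasseDeriv j p).eval x - a j| ≤ (K ^ 2)⁻¹ * B)
    (hG : |x - G| ≤ E) (hEpos : 0 < E) :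
    |x - (G - ((hasseDeriv (i - 1) p).eval G - (if 2 ≤ i then a (i - 1) else 0)) / (i * a i))| ≤
      (2 ^ (3 * D + 3)) * K⁻¹ * E := by
  have hKpos : 0 < K := by linarith
  have hKE : 0 < K * E := by positivity
  have hai' : 0 < |a i| := abs_pos.mpr hai
  have hipos : (0 : ℝ) < i := by exact_mod_cast hi
  have hKinv : K⁻¹ ≤ 1 := inv_le_one_of_one_le₀ hK
  have hKinv0 : 0 < K⁻¹ := by positivity
  set b : ℕ → ℝ := fun k => (hasseDeriv (i - 1 + k) p).eval x with hb
  -- ratio bounds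
  have hup : ∀ k, i + k ≤ D → |a (i + k)| * (K * E) ^ k ≤ |a i| := by
    intro k hk
    have h1 := hmax (i + k) (by omega) hk
    have h2 : (K * E) ^ (i + k) = (K * E) ^ i * (K * E) ^ k := pow_add _ _ _
    rw [h2] at h1
    have h3 : 0 < (K * E) ^ i := by positivity
    have h4 : (K * E) ^ i * (|a (i + k)| * (K * E) ^ k) ≤ (K * E) ^ i * |a i| := by nlinarith
    exact le_of_mul_le_mul_left h4 h3
  have hupE : ∀ k, i + k ≤ D → |a (i + k)| * E ^ k ≤ |a i| * K⁻¹ ^ k := by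
    intro k hk
    have h1 := hup k hk
    rw [mul_pow] at h1
    have h3 : 0 < K ^ k := by positivity
    rw [inv_pow, ← div_eq_mul_inv, le_div_iff₀ h3]
    nlinarith
  have hupδ : ∀ k, i + k ≤ D → |a (i + k)| * δ ^ k ≤ |a i| := by
    intro k hk
    have h1 := hupE k hk
    have h2 : δ ^ k ≤ E ^ k := pow_le_pow_left₀ hδ hE k
    have h3 : K⁻¹ ^ k ≤ 1 := pow_le_one₀ hKinv0.le hKinv
    have h4 : |a (i + k)| * δ ^ k ≤ |a (i + k)| * E ^ k :=
      mul_le_mul_of_nonneg_left h2 (abs_nonneg _)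
    have h5 : |a i| * K⁻¹ ^ k ≤ |a i| * 1 := mul_le_mul_of_nonneg_left h3 hai'.le
    linarith
  -- the coefficient number one
  have hb1 : |b 1 - a i| ≤ (K ^ 2)⁻¹ * |a i| := by
    have h1 := hj i hi hiD |a i| hupδ
    have h2 : i - 1 + 1 = i := by omega
    simp only [hb, h2]
    exact h1
  have hKsq : (K ^ 2)⁻¹ ≤ K⁻¹ := by
    rw [inv_le_inv₀ (by positivity) hKpos]
    nlinarith
  -- the coefficient number zero
  have hb0 : |b 0 - (if 2 ≤ i then a (i - 1) else 0)| ≤ K⁻¹ * (|a i| * E) := by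
    simp only [hb, add_zero]
    split_ifs with h2i
    · have h1 := hj (i - 1) (by omega) (by omega) (K * (|a i| * E)) (by
        intro k hk
        rcases k with _ | k
        · have h2 := hmax (i - 1) (by omega) (by omega)
          have h3 : (K * E) ^ i = (K * E) ^ (i - 1) * (K * E) := by
            rw [← pow_succ]; congr 1; omega
          rw [h3] at h2
          have h4 : 0 < (K * E) ^ (i - 1) := by positivity
          have h5 : (K * E) ^ (i - 1) * |a (i - 1)| ≤ (K * E) ^ (i - 1) * (|a i| * (K * E)) := by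
            nlinarith
          have h6 := le_of_mul_le_mul_left h5 h4
          simp only [add_zero, pow_zero, mul_one]
          calc |a (i - 1)| ≤ |a i| * (K * E) := h6
            _ = K * (|a i| * E) := by ring
        · have h2 : i - 1 + (k + 1) = i + k := by omega
          rw [h2, pow_succ]
          have h3 := hupδ k (by omega)
          have h4 : |a (i + k)| * (δ ^ k * δ) ≤ |a i| * E := by
            calc |a (i + k)| * (δ ^ k * δ) = (|a (i + k)| * δ ^ k) * δ := by ring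
              _ ≤ |a i| * E := mul_le_mul h3 hE hδ hai'.le
          have h5 : |a i| * E ≤ K * (|a i| * E) := by
            have : 0 ≤ |a i| * E := by positivity
            nlinarith
          linarith)
      calc |(hasseDeriv (i - 1) p).eval x - a (i - 1)| ≤ (K ^ 2)⁻¹ * (K * (|a i| * E)) := h1
        _ = K⁻¹ * (|a i| * E) := by field_simp
    · have hi1 : i = 1 := by omega
      subst hi1
      simp only [Nat.sub_self, hasseDeriv_zero', sub_zero]
      calc |p.eval x| ≤ K⁻¹ * |a 1| * δ := h0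
        _ ≤ K⁻¹ * |a 1| * E := by
            apply mul_le_mul_of_nonneg_left hE
            positivity
        _ = K⁻¹ * (|a 1| * E) := by ring
  -- the higher coefficients
  have hbk : ∀ k, 2 ≤ k → i - 1 + k ≤ D → |b k| * E ^ k ≤ 2 * K⁻¹ * (|a i| * E) := by
    intro k hk2 hkD
    obtain ⟨k', rfl⟩ : ∃ k', k = k' + 2 := ⟨k - 2, by omega⟩
    have e1 : i - 1 + (k' + 2) = i + (k' + 1) := by omega
    have h1 : |b (k' + 2) - a (i + (k' + 1))| ≤ (K ^ 2)⁻¹ * (|a i| * (E ^ (k' + 1))⁻¹) := by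
      simp only [hb, e1]
      refine hj _ (by omega) (by omega) _ ?_
      intro k hk
      have h2 := hupE (k' + 1 + k) (by omega)
      have h3 : i + (k' + 1) + k = i + (k' + 1 + k) := by ring
      rw [h3]
      have h4 : K⁻¹ ^ (k' + 1 + k) ≤ 1 := pow_le_one₀ hKinv0.le hKinv
      have h5 : δ ^ k ≤ E ^ k := pow_le_pow_left₀ hδ hE k
      have h6 : 0 < E ^ (k' + 1) := by positivity
      rw [← div_eq_mul_inv, le_div_iff₀ h6]
      calc |a (i + (k' + 1 + k))| * δ ^ k * E ^ (k' + 1)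
          ≤ |a (i + (k' + 1 + k))| * E ^ k * E ^ (k' + 1) := by
            apply mul_le_mul_of_nonneg_right _ h6.le
            exact mul_le_mul_of_nonneg_left h5 (abs_nonneg _)
        _ = |a (i + (k' + 1 + k))| * E ^ (k' + 1 + k) := by rw [pow_add E (k' + 1) k]; ring
        _ ≤ |a i| * K⁻¹ ^ (k' + 1 + k) := h2
        _ ≤ |a i| * 1 := mul_le_mul_of_nonneg_left h4 hai'.le
        _ = |a i| := mul_one _
    have h2 : |b (k' + 2)| ≤ |a (i + (k' + 1))| + (K ^ 2)⁻¹ * (|a i| * (E ^ (k' + 1))⁻¹) := by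
      have := abs_sub_abs_le_abs_sub (b (k' + 2)) (a (i + (k' + 1)))
      linarith
    have h3 := hupE (k' + 1) (by omega)
    have h4 : K⁻¹ ^ (k' + 1) ≤ K⁻¹ := by
      rw [pow_succ]
      have : K⁻¹ ^ k' ≤ 1 := pow_le_one₀ hKinv0.le hKinv
      nlinarith
    have hEk : 0 < E ^ (k' + 1) := by positivity
    calc |b (k' + 2)| * E ^ (k' + 2)
        ≤ (|a (i + (k' + 1))| + (K ^ 2)⁻¹ * (|a i| * (E ^ (k' + 1))⁻¹)) * E ^ (k' + 2) :=
          mul_le_mul_of_nonneg_right h2 (by positivity)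
      _ = (|a (i + (k' + 1))| * E ^ (k' + 1)) * E + (K ^ 2)⁻¹ * (|a i| * E) := by
          rw [pow_succ E (k' + 1)]
          field_simp
      _ ≤ (|a i| * K⁻¹ ^ (k' + 1)) * E + K⁻¹ * (|a i| * E) := by
          have h5 : (K ^ 2)⁻¹ * (|a i| * E) ≤ K⁻¹ * (|a i| * E) :=
            mul_le_mul_of_nonneg_right hKsq (by positivity)
          have h6 := mul_le_mul_of_nonneg_right h3 hEpos.le
          linarith
      _ ≤ (|a i| * K⁻¹) * E + K⁻¹ * (|a i| * E) := by
          have h5 : |a i| * K⁻¹ ^ (k' + 1) * E ≤ |a i| * K⁻¹ * E :=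
            mul_le_mul_of_nonneg_right (mul_le_mul_of_nonneg_left h4 hai'.le) hEpos.le
          linarith
      _ = 2 * K⁻¹ * (|a i| * E) := by ring
  -- vanishing of the very high coefficients
  have hvan : ∀ k, D < i - 1 + k → b k = 0 := by
    intro k hk
    simp only [hb]
    rw [hasseDeriv_eq_zero_of_lt_natDegree p _ (lt_of_le_of_lt hD hk), eval_zero]
  -- the expansion
  have hexp := hasse_eval_eq p D (i - 1) hD x G
  have hsplit : ∑ k ∈ range (D + 1), ((i - 1 + k).choose k : ℝ) * (hasseDeriv (i - 1 + k) p).eval x *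
      (G - x) ^ k = b 0 + i * b 1 * (G - x) +
        ∑ k ∈ range (D - 1), ((i - 1 + (k + 2)).choose (k + 2) : ℝ) * b (k + 2) * (G - x) ^ (k + 2) := by
    have hD1 : D + 1 = (D - 1) + 2 := by omega
    rw [hD1, Finset.sum_range_succ', Finset.sum_range_succ']
    have hc1 : ((i - 1 + (0 + 1)).choose (0 + 1) : ℝ) = i := by
      have : i - 1 + (0 + 1) = i := by omega
      rw [this]
      simp
    simp only [hb, hc1]
    simp only [Nat.choose_zero_right, Nat.cast_one, pow_zero, one_mul, mul_one, add_zero, zero_add,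
      pow_one]
    ring
  rw [hsplit] at hexp
  set R : ℝ := ∑ k ∈ range (D - 1), ((i - 1 + (k + 2)).choose (k + 2) : ℝ) * b (k + 2) *
    (G - x) ^ (k + 2) with hR
  have hGx : |G - x| ≤ E := by rw [abs_sub_comm]; exact hG
  have hRle : |R| ≤ (D * 2 ^ (2 * D) : ℝ) * (2 * K⁻¹ * (|a i| * E)) := by
    refine (Finset.abs_sum_le_sum_abs _ _).trans ?_
    have h1 : ∀ k ∈ range (D - 1), |((i - 1 + (k + 2)).choose (k + 2) : ℝ) * b (k + 2) *
        (G - x) ^ (k + 2)| ≤ (2 ^ (2 * D) : ℝ) * (2 * K⁻¹ * (|a i| * E)) := by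
      intro k hk
      rw [Finset.mem_range] at hk
      by_cases hkD : i - 1 + (k + 2) ≤ D
      · have h2 := hbk (k + 2) (by omega) hkD
        have h3 : ((i - 1 + (k + 2)).choose (k + 2) : ℝ) ≤ 2 ^ (2 * D) := by
          have h4 : (i - 1 + (k + 2)).choose (k + 2) ≤ 2 ^ (i - 1 + (k + 2)) :=
            Nat.choose_le_two_pow _ _
          have h5 : 2 ^ (i - 1 + (k + 2)) ≤ 2 ^ (2 * D) := Nat.pow_le_pow_right (by norm_num) (by omega)
          exact_mod_cast h4.trans h5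
        rw [abs_mul, abs_mul, abs_pow, Nat.abs_cast]
        have h6 : |G - x| ^ (k + 2) ≤ E ^ (k + 2) := pow_le_pow_left₀ (abs_nonneg _) hGx _
        calc ((i - 1 + (k + 2)).choose (k + 2) : ℝ) * |b (k + 2)| * |G - x| ^ (k + 2)
            ≤ ((i - 1 + (k + 2)).choose (k + 2) : ℝ) * |b (k + 2)| * E ^ (k + 2) :=
              mul_le_mul_of_nonneg_left h6 (by positivity)
          _ = ((i - 1 + (k + 2)).choose (k + 2) : ℝ) * (|b (k + 2)| * E ^ (k + 2)) := by ring
          _ ≤ (2 ^ (2 * D) : ℝ) * (2 * K⁻¹ * (|a i| * E)) :=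
              mul_le_mul h3 h2 (by positivity) (by positivity)
      · rw [hvan (k + 2) (by omega)]
        simp only [mul_zero, zero_mul, abs_zero]
        positivity
    refine (Finset.sum_le_card_nsmul _ _ _ h1).trans ?_
    rw [card_range, nsmul_eq_mul]
    have h2 : ((D - 1 : ℕ) : ℝ) ≤ D := by exact_mod_cast Nat.sub_le D 1
    have h3 : (0 : ℝ) ≤ (2 ^ (2 * D) : ℝ) * (2 * K⁻¹ * (|a i| * E)) := by positivity
    calc ((D - 1 : ℕ) : ℝ) * ((2 ^ (2 * D) : ℝ) * (2 * K⁻¹ * (|a i| * E)))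
        ≤ D * ((2 ^ (2 * D) : ℝ) * (2 * K⁻¹ * (|a i| * E))) :=
          mul_le_mul_of_nonneg_right h2 h3
      _ = (D * 2 ^ (2 * D) : ℝ) * (2 * K⁻¹ * (|a i| * E)) := by ring
  -- conclusion
  have hne : (i : ℝ) * a i ≠ 0 := mul_ne_zero hipos.ne' hai
  have hid : x - (G - ((hasseDeriv (i - 1) p).eval G - (if 2 ≤ i then a (i - 1) else 0)) / (i * a i)) =
      ((b 0 - (if 2 ≤ i then a (i - 1) else 0)) + i * (b 1 - a i) * (G - x) + R) / (i * a i) := by
    rw [hexp]
    field_simp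
    ring
  rw [hid, abs_div, abs_mul, abs_of_pos hipos, div_le_iff₀ (by positivity)]
  have h1 : |(b 0 - (if 2 ≤ i then a (i - 1) else 0)) + i * (b 1 - a i) * (G - x) + R| ≤
      |b 0 - (if 2 ≤ i then a (i - 1) else 0)| + i * |b 1 - a i| * |G - x| + |R| := by
    refine (abs_add_le _ _).trans ?_
    have := abs_add_le (b 0 - (if 2 ≤ i then a (i - 1) else 0)) (i * (b 1 - a i) * (G - x))
    rw [abs_mul, abs_mul, abs_of_pos hipos] at this
    linarith
  refine h1.trans ?_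
  have h2 : i * |b 1 - a i| * |G - x| ≤ i * (K⁻¹ * (|a i| * E)) := by
    have h3 : |b 1 - a i| * |G - x| ≤ (K⁻¹ * |a i|) * E :=
      mul_le_mul (hb1.trans (mul_le_mul_of_nonneg_right hKsq hai'.le)) hGx (abs_nonneg _)
        (by positivity)
    calc i * |b 1 - a i| * |G - x| = i * (|b 1 - a i| * |G - x|) := by ring
      _ ≤ i * ((K⁻¹ * |a i|) * E) := mul_le_mul_of_nonneg_left h3 hipos.le
      _ = i * (K⁻¹ * (|a i| * E)) := by ring
  have hi1 : (1 : ℝ) ≤ i := by exact_mod_cast hi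
  set q : ℝ := K⁻¹ * (|a i| * E) with hq
  have hq0 : 0 ≤ q := by positivity
  have hDpow : (D : ℝ) ≤ 2 ^ D := by exact_mod_cast (Nat.lt_two_pow_self (n := D)).le
  have hD1' : 1 ≤ D := le_trans hi hiD
  have h2D : (2 : ℝ) ≤ 2 ^ D := by
    calc (2 : ℝ) = 2 ^ 1 := by norm_num
      _ ≤ 2 ^ D := pow_le_pow_right₀ (by norm_num) hD1'
  have hR2 : |R| ≤ 2 * 2 ^ (3 * D) * q := by
    refine hRle.trans ?_
    have h3 : (D * 2 ^ (2 * D) : ℝ) ≤ 2 ^ (3 * D) := by
      calc (D * 2 ^ (2 * D) : ℝ) ≤ 2 ^ D * 2 ^ (2 * D) :=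
            mul_le_mul_of_nonneg_right hDpow (by positivity)
        _ = 2 ^ (3 * D) := by rw [← pow_add]; congr 1; ring
    have h4 : 2 * K⁻¹ * (|a i| * E) = 2 * q := by rw [hq]; ring
    rw [h4]
    calc (D * 2 ^ (2 * D) : ℝ) * (2 * q) ≤ 2 ^ (3 * D) * (2 * q) :=
          mul_le_mul_of_nonneg_right h3 (by positivity)
      _ = 2 * 2 ^ (3 * D) * q := by ring
  have h8 : (2 : ℝ) ^ (3 * D + 3) = 8 * 2 ^ (3 * D) := by rw [pow_add]; ring
  have h9 : (1 : ℝ) ≤ 2 ^ (3 * D) := one_le_pow₀ (by norm_num)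
  have h10 : (2 : ℝ) ^ (3 * D + 3) * K⁻¹ * E * (i * |a i|) = 8 * 2 ^ (3 * D) * (i * q) := by
    rw [h8, hq]; ring
  rw [h10]
  have h11 : q ≤ i * q := by nlinarith
  have h12 : 0 ≤ i * q := by positivity
  have h13 : i * q ≤ 2 ^ (3 * D) * (i * q) := by nlinarith
  have h14 : 2 * 2 ^ (3 * D) * q ≤ 2 * 2 ^ (3 * D) * (i * q) :=
    mul_le_mul_of_nonneg_left h11 (by positivity)
  linarith

variable {n : ℕ}

/-- The Newton step as an operation on polynomials in the base variables. -/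
noncomputable def newtonPoly (P : (MvPolynomial (Fin n) ℝ)[X]) (i : ℕ) (c α : ℝ)
    (G : MvPolynomial (Fin n) ℝ) : MvPolynomial (Fin n) ℝ :=
  G - MvPolynomial.C (α⁻¹) * ((hasseDeriv (i - 1) P).eval G - MvPolynomial.C c)

/-- The restriction of `P` to one base point. -/
noncomputable def atBase (P : (MvPolynomial (Fin n) ℝ)[X]) (y : Fin n → ℝ) : ℝ[X] :=
  P.map (MvPolynomial.eval y)

theorem hasseDeriv_atBase (P : (MvPolynomial (Fin n) ℝ)[X]) (y : Fin n → ℝ) (m : ℕ) :
    hasseDeriv m (atBase P y) = (hasseDeriv m P).map (MvPolynomial.eval y) := by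
  ext k
  rw [hasseDeriv_coeff, atBase, coeff_map, coeff_map, hasseDeriv_coeff, map_mul, map_natCast]

theorem eval_newtonPoly (P : (MvPolynomial (Fin n) ℝ)[X]) (i : ℕ) (c α : ℝ)
    (G : MvPolynomial (Fin n) ℝ) (y : Fin n → ℝ) :
    MvPolynomial.eval y (newtonPoly P i c α G) =
      MvPolynomial.eval y G -
        ((hasseDeriv (i - 1) (atBase P y)).eval (MvPolynomial.eval y G) - c) / α := by
  rw [newtonPoly, map_sub, map_mul, map_sub, MvPolynomial.eval_C, MvPolynomial.eval_C,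
    hasseDeriv_atBase, eval_map, Polynomial.eval₂_hom]
  ring

theorem natDegree_atBase_le (P : (MvPolynomial (Fin n) ℝ)[X]) (y : Fin n → ℝ) :
    (atBase P y).natDegree ≤ P.natDegree := natDegree_map_le

/-- The degree grows by a bounded factor. -/
theorem totalDegree_newtonPoly (P : (MvPolynomial (Fin n) ℝ)[X]) (D : ℕ) (hD : P.natDegree ≤ D)
    (hc : ∀ j, (P.coeff j).totalDegree ≤ D) (i : ℕ) (c α : ℝ) (G : MvPolynomial (Fin n) ℝ) (k : ℕ)
    (hk : 1 ≤ k) (hG : G.totalDegree ≤ k) :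
    (newtonPoly P i c α G).totalDegree ≤ (2 * D + 1) * k := by
  have h1 : ((hasseDeriv (i - 1) P).eval G).totalDegree ≤ D + D * k := by
    rw [eval_eq_sum_range' (n := D + 1)]
    · refine MvPolynomial.totalDegree_finsetSum_le ?_
      intro j hj
      rw [Finset.mem_range] at hj
      refine (MvPolynomial.totalDegree_mul _ _).trans ?_
      have h2 : ((hasseDeriv (i - 1) P).coeff j).totalDegree ≤ D := by
        rw [hasseDeriv_coeff]
        refine (MvPolynomial.totalDegree_mul _ _).trans ?_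
        have h3 : (((j + (i - 1)).choose (i - 1) : ℕ) : MvPolynomial (Fin n) ℝ).totalDegree = 0 := by
          rw [← map_natCast (MvPolynomial.C (σ := Fin n) (R := ℝ)), MvPolynomial.totalDegree_C]
        rw [h3, zero_add]
        exact hc _
      have h4 : (G ^ j).totalDegree ≤ D * k := by
        refine (MvPolynomial.totalDegree_pow _ _).trans ?_
        exact Nat.mul_le_mul (by omega) hG
      omega
    · have := natDegree_hasseDeriv_le P (i - 1)
      omega
  have h2 : (MvPolynomial.C (α⁻¹) * ((hasseDeriv (i - 1) P).eval G - MvPolynomial.C c) :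
      MvPolynomial (Fin n) ℝ).totalDegree ≤ D + D * k := by
    refine (MvPolynomial.totalDegree_mul _ _).trans ?_
    rw [MvPolynomial.totalDegree_C, zero_add]
    refine (MvPolynomial.totalDegree_sub _ _).trans ?_
    rw [MvPolynomial.totalDegree_C]
    exact max_le h1 (Nat.zero_le _)
  refine (MvPolynomial.totalDegree_sub _ _).trans ?_
  refine max_le ?_ (h2.trans ?_)
  · calc G.totalDegree ≤ k := hG
      _ ≤ (2 * D + 1) * k := by nlinarith
  · nlinarith

/-- The best index. -/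
theorem exists_max_index (D : ℕ) (hD : 1 ≤ D) (a : ℕ → ℝ) (ha : a 1 ≠ 0) (ρ : ℝ) (hρ : 0 < ρ) :
    ∃ i, 1 ≤ i ∧ i ≤ D ∧ a i ≠ 0 ∧ ∀ j, 1 ≤ j → j ≤ D → |a j| * ρ ^ j ≤ |a i| * ρ ^ i := by
  obtain ⟨i, hi, hmax⟩ := Finset.exists_max_image (Finset.Icc 1 D) (fun j => |a j| * ρ ^ j)
    ⟨1, Finset.mem_Icc.mpr ⟨le_refl _, hD⟩⟩
  rw [Finset.mem_Icc] at hi
  refine ⟨i, hi.1, hi.2, ?_, fun j h1 h2 => hmax j (Finset.mem_Icc.mpr ⟨h1, h2⟩)⟩
  intro h0
  have h1 := hmax 1 (Finset.mem_Icc.mpr ⟨le_refl _, hD⟩)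
  simp only [h0, abs_zero, zero_mul] at h1
  have h2 : 0 < |a 1| * ρ ^ 1 := by
    have := abs_pos.mpr ha
    positivity
  linarith

/-- **Row NWT (Lemma N of K_POLY).** Points `(Y, N)` of a set `S` at which the Taylor coefficients
of `P (Y, ·)` are nearly constant and `P` is small lie on the graph of ONE polynomial in `Y`, up to
`δ`, and its degree is bounded in terms of `D` and of the number `T` of steps. -/
theorem nwt (P : (MvPolynomial (Fin n) ℝ)[X]) (D : ℕ) (hD1 : 1 ≤ D) (hD : P.natDegree ≤ D)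
    (hc : ∀ j, (P.coeff j).totalDegree ≤ D) (a : ℕ → ℝ) (ha : a 1 ≠ 0) (K δ E0 c : ℝ)
    (hK : 2 ^ (3 * D + 3) ≤ K) (hδ : 0 < δ) (hE0 : δ ≤ E0) (S : Set ((Fin n → ℝ) × ℝ))
    (h0 : ∀ x ∈ S, |(atBase P x.1).eval x.2| ≤ K⁻¹ * |a 1| * δ)
    (hj : ∀ x ∈ S, ∀ j, 1 ≤ j → j ≤ D → ∀ B : ℝ, (∀ k, j + k ≤ D → |a (j + k)| * δ ^ k ≤ B) →
      |(hasseDeriv j (atBase P x.1)).eval x.2 - a j| ≤ (K ^ 2)⁻¹ * B)
    (hstart : ∀ x ∈ S, |x.2 - c| ≤ E0) (T : ℕ)
    (hT : (2 ^ (3 * D + 3) * K⁻¹) ^ T * E0 ≤ δ) :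
    ∃ G : MvPolynomial (Fin n) ℝ, G.totalDegree ≤ (2 * D + 1) ^ T ∧
      ∀ x ∈ S, |x.2 - MvPolynomial.eval x.1 G| ≤ δ := by
  have hKpos : 0 < K := lt_of_lt_of_le (by positivity) hK
  have hK1 : 1 ≤ K := le_trans (one_le_pow₀ (by norm_num)) hK
  set κ : ℝ := 2 ^ (3 * D + 3) * K⁻¹ with hκ
  have hκ0 : 0 < κ := by positivity
  have hκ1 : κ ≤ 1 := by
    rw [hκ, ← div_eq_mul_inv, div_le_one hKpos]
    exact hK
  have key : ∀ t : ℕ, ∃ G : MvPolynomial (Fin n) ℝ, G.totalDegree ≤ (2 * D + 1) ^ t ∧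
      ∀ x ∈ S, |x.2 - MvPolynomial.eval x.1 G| ≤ max δ (κ ^ t * E0) := by
    intro t
    induction t with
    | zero =>
      refine ⟨MvPolynomial.C c, by rw [MvPolynomial.totalDegree_C]; exact Nat.zero_le _, ?_⟩
      intro x hx
      rw [MvPolynomial.eval_C, pow_zero, one_mul]
      exact (hstart x hx).trans (le_max_right _ _)
    | succ t ih =>
      obtain ⟨G, hGd, hG⟩ := ih
      set E : ℝ := max δ (κ ^ t * E0) with hE
      have hEδ : δ ≤ E := le_max_left _ _
      have hEpos : 0 < E := lt_of_lt_of_le hδ hEδ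
      obtain ⟨i, hi1, hi2, hi3, hmax⟩ := exists_max_index D hD1 a ha (K * E) (by positivity)
      refine ⟨newtonPoly P i (if 2 ≤ i then a (i - 1) else 0) (i * a i) G, ?_, ?_⟩
      · have h1 := totalDegree_newtonPoly P D hD hc i (if 2 ≤ i then a (i - 1) else 0) (i * a i) G
          ((2 * D + 1) ^ t) (Nat.one_le_pow _ _ (by omega)) hGd
        refine h1.trans (le_of_eq ?_)
        rw [pow_succ, mul_comm]
      · intro x hx
        rw [eval_newtonPoly]
        have h1 := newton_step (atBase P x.1) D ((natDegree_atBase_le P x.1).trans hD) a K δ E x.2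
          (MvPolynomial.eval x.1 G) hK1 hδ.le hEδ i hi1 hi2 hi3 hmax (h0 x hx) (hj x hx) (hG x hx)
          hEpos
        refine h1.trans ?_
        have h2 : 2 ^ (3 * D + 3) * K⁻¹ * E = κ * E := by rw [hκ]
        rw [h2, hE, pow_succ, mul_max_of_nonneg _ _ hκ0.le]
        refine max_le_max ?_ (le_of_eq (by ring))
        calc κ * δ ≤ 1 * δ := mul_le_mul_of_nonneg_right hκ1 hδ.le
          _ = δ := one_mul δ
  obtain ⟨G, h1, h2⟩ := key T
  refine ⟨G, h1, fun x hx => (h2 x hx).trans ?_⟩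
  exact max_le (le_refl _) hT

end Pool.KPO
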